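import Mathlib
import Pool.Agent.N669.CQ.Stm

/-! Project CQ (helper669, MP_b29168_gt), part LOC: the strict inequality near one body.
By helper335. -/

set_option autoImplicit false

namespace Pool.Agent.N335.CQ

open MeasureTheory Set
open Pool.Agent.N669.CQ

lemma t0_mem (z : P) (h1 : 0 < z.1) (h2 : 0 < z.2) (h3 : z.1 + z.2 ≤ 1) : z ∈ T0 := by
  have hc : Convex ℝ T0 := convex_convexHull ℝ _
  have ha : (((0 : ℝ), (0 : ℝ)) : P) ∈ T0 := subset_convexHull ℝ _ (by simp)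
  have hb : (((1 : ℝ), (0 : ℝ)) : P) ∈ T0 := subset_convexHull ℝ _ (by simp)
  have hd : (((0 : ℝ), (1 : ℝ)) : P) ∈ T0 := subset_convexHull ℝ _ (by simp)
  have hs : 0 < z.1 + z.2 := by linarith
  have hp := hc hb hd (a := z.1 / (z.1 + z.2)) (b := z.2 / (z.1 + z.2))
    (by positivity) (by positivity) (by field_simp)
  have hq := hc ha hp (a := 1 - (z.1 + z.2)) (b := z.1 + z.2) (by linarith) hs.le (by ring)
  convert hq using 1
  ext
  · simp only [Prod.fst_add, Prod.smul_fst, smul_eq_mul]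
    field_simp
    ring
  · simp only [Prod.snd_add, Prod.smul_snd, smul_eq_mul]
    field_simp
    ring

/-- one of the two inclusions -/
lemma incl {K K' : Set P} {e : ℝ} (he : 0 < e) (hK : Convex ℝ K) (hT : T0 ⊆ K)
    (hd : ∀ x' ∈ K', ∃ x ∈ K, dist x' x < e / 8) :
    af (-e / 4, -e / 4) (1 + e, 0) (0, 1 + e) ⁻¹' K' ⊆ K := by
  intro z hz
  obtain ⟨x, hx, hdx⟩ := hd _ hz
  have hd1 : |(-e / 4 + (1 + e) * z.1) - x.1| < e / 8 := by
    have h1 : dist (af (-e / 4, -e / 4) (1 + e, 0) (0, 1 + e) z).1 x.1 ≤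
        dist (af (-e / 4, -e / 4) (1 + e, 0) (0, 1 + e) z) x := by
      rw [Prod.dist_eq]
      exact le_max_left _ _
    have h2 : (af (-e / 4, -e / 4) (1 + e, 0) (0, 1 + e) z).1 = -e / 4 + (1 + e) * z.1 := by
      simp only [af, Prod.fst_add, Prod.smul_fst, smul_eq_mul]
      ring
    rw [h2, Real.dist_eq] at h1
    linarith
  have hd2 : |(-e / 4 + (1 + e) * z.2) - x.2| < e / 8 := by
    have h1 : dist (af (-e / 4, -e / 4) (1 + e, 0) (0, 1 + e) z).2 x.2 ≤
        dist (af (-e / 4, -e / 4) (1 + e, 0) (0, 1 + e) z) x := by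
      rw [Prod.dist_eq]
      exact le_max_right _ _
    have h2 : (af (-e / 4, -e / 4) (1 + e, 0) (0, 1 + e) z).2 = -e / 4 + (1 + e) * z.2 := by
      simp only [af, Prod.snd_add, Prod.smul_snd, smul_eq_mul]
      ring
    rw [h2, Real.dist_eq] at h1
    linarith
  obtain ⟨w, hw⟩ : ∃ w : P, w = (((1 + e) * z.1 - x.1) / e, ((1 + e) * z.2 - x.2) / e) := ⟨_, rfl⟩
  rw [abs_lt] at hd1 hd2
  have hw1 : 1 / 8 < w.1 ∧ w.1 < 3 / 8 := by
    rw [hw]
    constructor
    · show 1 / 8 < ((1 + e) * z.1 - x.1) / e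
      rw [lt_div_iff₀ he]
      linarith [hd1.1]
    · show ((1 + e) * z.1 - x.1) / e < 3 / 8
      rw [div_lt_iff₀ he]
      linarith [hd1.2]
  have hw2 : 1 / 8 < w.2 ∧ w.2 < 3 / 8 := by
    rw [hw]
    constructor
    · show 1 / 8 < ((1 + e) * z.2 - x.2) / e
      rw [lt_div_iff₀ he]
      linarith [hd2.1]
    · show ((1 + e) * z.2 - x.2) / e < 3 / 8
      rw [div_lt_iff₀ he]
      linarith [hd2.2]
  have hwT : w ∈ K := hT (t0_mem w (by linarith [hw1.1]) (by linarith [hw2.1])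
    (by linarith [hw1.2, hw2.2]))
  have h1e : 0 < 1 + e := by linarith
  have hq := hK hx hwT (a := 1 / (1 + e)) (b := e / (1 + e)) (by positivity) (by positivity)
    (by field_simp)
  convert hq using 1
  rw [hw]
  ext
  · simp only [Prod.fst_add, Prod.smul_fst, smul_eq_mul]
    field_simp
    ring
  · simp only [Prod.snd_add, Prod.smul_snd, smul_eq_mul]
    field_simp
    ring

lemma ar_pos {a b c d : P} (h : Tn a b c d) : 0 < ar a b c d := by
  have h1 := h.ta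
  have h2 := h.tc
  have h3 : ar a b c d = (cr (a - d) (b - a) + cr (c - b) (d - c)) / 2 := by
    simp only [ar, cr, Prod.fst_sub, Prod.snd_sub]
    ring
  rw [h3]
  linarith

theorem t_LOC (h1 : S_A) (h2 : S_AF1) (h3 : S_AF2) : S_LOC := by
  intro K hK hT
  obtain ⟨a, b, c, d, hC, har⟩ := h1 K hK
  have hpos := ar_pos hC.1
  have hs2 : 0 < √2 := Real.sqrt_pos.2 (by norm_num)
  have hV : 0 < vol K := by
    by_contra hneg
    push Not at hneg
    have : √2 * vol K ≤ 0 := mul_nonpos_of_nonneg_of_nonpos hs2.le hneg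
    linarith
  obtain ⟨c₀, hc₀⟩ : ∃ c₀, c₀ = ar a b c d / vol K := ⟨_, rfl⟩
  have hc₀2 : c₀ < √2 := by
    rw [hc₀, div_lt_iff₀ hV]
    exact har
  obtain ⟨e, he, hec⟩ : ∃ e : ℝ, 0 < e ∧ (1 + e) ^ 4 * c₀ < √2 := by
    have hcont : ContinuousAt (fun e : ℝ => (1 + e) ^ 4 * c₀) 0 := by fun_prop
    have hlt : (fun e : ℝ => (1 + e) ^ 4 * c₀) 0 < √2 := by
      simpa using hc₀2
    have hev := hcont.eventually_lt continuousAt_const hlt
    obtain ⟨ε, hε, hb⟩ := Metric.eventually_nhds_iff.1 hev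
    refine ⟨ε / 2, by positivity, hb ?_⟩
    rw [Real.dist_eq, sub_zero, abs_of_pos (by positivity)]
    linarith
  have h1e : 0 < 1 + e := by linarith
  refine ⟨e / 8, by positivity, (1 + e) ^ 4 * c₀, hec, ?_⟩
  intro K' hK' hT' hdist
  have hneK : K.Nonempty := hK.int.mono interior_subset
  have hneK' : K'.Nonempty := hK'.int.mono interior_subset
  have hfin : Metric.hausdorffEDist K K' ≠ ⊤ :=
    Metric.hausdorffEDist_ne_top_of_nonempty_of_bounded hneK hneK' hK.comp.isBounded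
      hK'.comp.isBounded
  have hcr : cr ((1 + e, 0) : P) ((0, 1 + e) : P) = (1 + e) ^ 2 := by
    simp only [cr]
    ring
  have hcrpos : 0 < cr ((1 + e, 0) : P) ((0, 1 + e) : P) := by
    rw [hcr]
    positivity
  have i1 : af (-e / 4, -e / 4) (1 + e, 0) (0, 1 + e) ⁻¹' K' ⊆ K := by
    refine incl he hK.conv hT fun x' hx' => ?_
    obtain ⟨x, hx, hd⟩ := Metric.exists_dist_lt_of_hausdorffDist_lt' hx' hdist hfin
    exact ⟨x, hx, by rwa [dist_comm]⟩
  have i2 : af (-e / 4, -e / 4) (1 + e, 0) (0, 1 + e) ⁻¹' K ⊆ K' := by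
    refine incl he hK'.conv hT' fun x hx => ?_
    exact Metric.exists_dist_lt_of_hausdorffDist_lt hx hdist hfin
  -- the areas
  have hvol : vol K ≤ (1 + e) ^ 2 * vol K' := by
    have h4 := ((h2 (-e / 4, -e / 4) (1 + e, 0) (0, 1 + e) hcrpos).2 K).2
    rw [h4, hcr]
    refine mul_le_mul_of_nonneg_left ?_ (by positivity)
    exact ENNReal.toReal_mono hK'.comp.measure_lt_top.ne (measure_mono i2)
  -- the quadrilateral
  obtain ⟨h5, h6⟩ := h3 (-e / 4, -e / 4) (1 + e, 0) (0, 1 + e) hcrpos K' a b c d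
  refine ⟨_, _, _, _, h5.1 ⟨hC.1, ?_, ?_, ?_, ?_⟩, ?_⟩
  · exact fun k hk => hC.2.ab k (i1 hk)
  · exact fun k hk => hC.2.bc k (i1 hk)
  · exact fun k hk => hC.2.cd k (i1 hk)
  · exact fun k hk => hC.2.da k (i1 hk)
  · rw [h6, hcr]
    have h7 : ar a b c d = c₀ * vol K := by
      rw [hc₀]
      field_simp
    have hc₀0 : 0 ≤ c₀ := by
      rw [hc₀]
      positivity
    rw [h7]
    calc (1 + e) ^ 2 * (c₀ * vol K) ≤ (1 + e) ^ 2 * (c₀ * ((1 + e) ^ 2 * vol K')) := by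
          gcongr
      _ = (1 + e) ^ 4 * c₀ * vol K' := by ring

end Pool.Agent.N335.CQ
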